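import Pool.Agent.H95.AD.Defs

/-!
# Almost all discriminants: targets for the oscillating part of the second moment
-/

set_option autoImplicit false

open MeasureTheory Set Filter
open scoped Real

namespace Pool.Agent.H95.AD

open Pool.Agent.H31.CN

/-! ### The Fourier expansion -/

/-- (K0) elementary facts on `K₀`. -/
def T_K0 : Prop :=
  ∀ x : ℝ, 0 < x → IntegrableOn (fun u : ℝ => Real.exp (-(x * Real.cosh u))) (Ioi 0) ∧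
    0 < k0 x ∧ k0 x ≤ 2 / Real.sqrt x * Real.exp (-x) ∧ ∀ y : ℝ, x ≤ y → k0 y ≤ k0 x

/-- (K0M) `K₀` as a Mellin integral. -/
def T_K0M : Prop :=
  ∀ a b : ℝ, 0 < a → 0 < b →
    IntegrableOn (fun t : ℝ => Real.exp (-(a / t + b * t)) / t) (Ioi 1) ∧
    (∫ t in Ioi (1 : ℝ), Real.exp (-(a / t + b * t)) / t) +
      (∫ t in Ioi (1 : ℝ), Real.exp (-(b / t + a * t)) / t) = 2 * k0 (2 * Real.sqrt (a * b))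

/-- (THX) the Fourier expansion of the theta function in the middle coefficient. -/
def T_THX : Prop :=
  ∀ A B Δ t : ℝ, 0 < A → 0 < Δ → 0 < t →
    Summable (fun x : ℕ × ℕ => Real.exp (-(π * (((x.1 : ℝ) + 1) ^ 2 *
      (Real.sqrt Δ / (2 * t * A)) + ((x.2 : ℝ) + 1) ^ 2 * (t * Real.sqrt Δ / (2 * A)))))) ∧
    Th A B Δ t = th1 (2 * t * A / Real.sqrt Δ) + Real.sqrt (Real.sqrt Δ / (2 * t * A)) *
        (th1 (t * Real.sqrt Δ / (2 * A)) - 1) +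
      Real.sqrt (Real.sqrt Δ / (2 * t * A)) * (4 * ∑' x : ℕ × ℕ,
        Real.cos (π * (((x.1 : ℝ) + 1) * ((x.2 : ℝ) + 1)) * B / A) *
          Real.exp (-(π * (((x.1 : ℝ) + 1) ^ 2 * (Real.sqrt Δ / (2 * t * A)) +
            ((x.2 : ℝ) + 1) ^ 2 * (t * Real.sqrt Δ / (2 * A))))))

/-- (FEX) the Fourier expansion of the central value, as a double sum. -/
def T_FEX : Prop :=
  ∀ A B Δ : ℝ, 0 < A → 0 < Δ →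
    Summable (fun x : ℕ × ℕ => k0 (π * (((x.1 : ℝ) + 1) * ((x.2 : ℝ) + 1)) * Real.sqrt Δ / A)) ∧
    zf A B Δ - ct A Δ = 4 / Real.sqrt A * ∑' x : ℕ × ℕ,
      Real.cos (π * (((x.1 : ℝ) + 1) * ((x.2 : ℝ) + 1)) * B / A) *
        k0 (π * (((x.1 : ℝ) + 1) * ((x.2 : ℝ) + 1)) * Real.sqrt Δ / A)

/-- (FEN) the Fourier expansion of the central value. -/
def T_FEN : Prop :=
  ∀ A B Δ : ℝ, 0 < A → 0 < Δ →
    Summable (fun n : ℕ => tau n * k0 (π * n * Real.sqrt Δ / A)) ∧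
    zf A B Δ - ct A Δ = 4 / Real.sqrt A * ∑' n : ℕ,
      tau n * k0 (π * n * Real.sqrt Δ / A) * Real.cos (π * n * B / A)

/-- (K0D) differences of `K₀`. -/
def T_K0D : Prop :=
  ∃ C : ℝ, 0 < C ∧ ∀ (x : ℝ) (D : ℕ), 0 < x → 1 ≤ D →
    |k0 (π * x * Real.sqrt ((D : ℝ) + 1)) - k0 (π * x * Real.sqrt D)| ≤
      C / D * (1 / Real.sqrt (x * Real.sqrt D)) * Real.exp (-(3 * x * Real.sqrt D))

/-- (BVD) differences of the cut-off function. -/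
def T_BVD : Prop :=
  ∃ C : ℝ, 0 < C ∧ ∀ (c : ℝ) (Y D : ℕ), 0 < c → 1 ≤ Y → Y ≤ D → D ≤ 2 * Y →
    |Vk (c / Real.sqrt D)| ≤ C * Real.exp (-(4 * (c / Real.sqrt Y))) ∧
    (D < 2 * Y → |Vk (c / Real.sqrt ((D : ℝ) + 1)) - Vk (c / Real.sqrt D)| ≤
      C / Y * Real.exp (-(4 * (c / Real.sqrt Y))))

/-! ### Exponential sums and the large sieve -/

/-- (ORT) the congruence in terms of additive characters. -/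
def T_ORT : Prop :=
  ∀ n A D : ℕ, 1 ≤ A → rs n A D = 1 / (4 * (A : ℂ)) *
    ∑ k ∈ Finset.range (4 * A), ee ((k : ℝ) * D / (4 * A)) * gs n A k

/-- (GVA) vanishing of Gauss sums. -/
def T_GVA : Prop :=
  ∀ n A k : ℕ, 1 ≤ A → ¬ Nat.gcd k A ∣ n → gs n A k = 0

/-- (PSV) the inequality of Parseval for the squares modulo `4 A`. -/
def T_PSV : Prop :=
  ∀ (A : ℕ) (φ : ℕ → ℂ), 1 ≤ A →
    ∑ k ∈ Finset.range (4 * A), ‖∑ B ∈ Finset.range (2 * A),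
        φ B * ee ((k : ℝ) * (B : ℝ) ^ 2 / (4 * A))‖ ^ 2 ≤
      4 * A * ∑ d ∈ A.divisors, (Nat.gcd d (A / d) : ℝ) *
        ∑ B ∈ (Finset.range (2 * A)).filter (fun B => Nat.gcd d (A / d) ∣ B), ‖φ B‖ ^ 2

/-- (PGB) the inequality of Parseval for trigonometric sums with decaying coefficients. -/
def T_PGB : Prop :=
  ∀ (q : ℕ) (κ : ℝ) (α : ℕ → ℝ), 1 ≤ q → 0 < κ →
    Summable (fun n : ℕ => α n ^ 2 * Real.exp (κ * n)) →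
    Summable (fun n : ℕ => |α n|) ∧
    ∑ B ∈ Finset.range q, ‖∑' n : ℕ, (α n : ℂ) * ee ((n : ℝ) * B / q)‖ ^ 2 ≤
      q * (1 + 1 / (κ * q)) * ∑' n : ℕ, α n ^ 2 * Real.exp (κ * n)

/-- (CKS) the mean square of the coefficients. -/
def T_CKS : Prop :=
  ∀ (A : ℕ) (κ : ℝ) (α : ℕ → ℝ), 1 ≤ A → 0 < κ →
    Summable (fun n : ℕ => α n ^ 2 * Real.exp (κ * n)) →
    ∑ k ∈ Finset.range (4 * A), ‖ck α A k‖ ^ 2 ≤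
      tau A * (1 + 1 / (κ * Real.sqrt A)) * ∑' n : ℕ, α n ^ 2 * Real.exp (κ * n)

/-- (SPC) the fractions are well spaced. -/
def T_SPC : Prop :=
  ∀ a d A A' k k' : ℕ, 1 ≤ a → 1 ≤ d → 1 ≤ A → 1 ≤ A' → a ∣ A → a ∣ A' → Nat.gcd k A = d →
    Nat.gcd k' A' = d → k < 4 * A → k' < 4 * A' → (A, k) ≠ (A', k') →
    (d : ℝ) * a / (4 * A * A') ≤ nd ((k : ℝ) / (4 * A) - (k' : ℝ) / (4 * A'))

/-- (DLS) the dual of the additive large sieve. -/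
def T_DLS : Prop :=
  ∃ C : ℝ, 0 < C ∧ ∀ (ι : Type) (s : Finset ι) (x : ι → ℝ) (c : ι → ℂ) (δ : ℝ) (Y Z : ℕ),
    0 < δ → Y ≤ Z → (∀ i ∈ s, ∀ j ∈ s, i ≠ j → δ ≤ nd (x i - x j)) →
    ∑ D ∈ Finset.Ico Y Z, ‖∑ i ∈ s, c i * ee (x i * D)‖ ^ 2 ≤
      C * ((Z : ℝ) - Y + 1 / δ) * ∑ i ∈ s, ‖c i‖ ^ 2

/-- (LSB) the large sieve for a block of moduli. -/
def T_LSB : Prop :=
  ∃ C : ℝ, 0 < C ∧ ∀ (a d Q Y : ℕ) (c : ℕ → ℕ → ℂ), 1 ≤ a → 1 ≤ d → 1 ≤ Q → 1 ≤ Y →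
    ∑ D ∈ Finset.Ico Y (2 * Y), ‖∑ A ∈ (Finset.Ico Q (2 * Q)).filter (fun A => a ∣ A),
        ∑ k ∈ (Finset.range (4 * A)).filter (fun k => Nat.gcd k A = d),
          c A k * ee ((k : ℝ) * D / (4 * A))‖ ^ 2 ≤
      C * (Y + (Q : ℝ) ^ 2 / (d * a)) *
        ∑ A ∈ (Finset.Ico Q (2 * Q)).filter (fun A => a ∣ A),
          ∑ k ∈ (Finset.range (4 * A)).filter (fun k => Nat.gcd k A = d), ‖c A k‖ ^ 2

/-- (DSM) the dependence of the coefficients on the discriminant. -/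
def T_DSM : Prop :=
  ∀ (ι : Type) [Countable ι] (ρ : ι → ℕ → ℂ) (α : ι → ℕ → ℝ) (Y : ℕ), 1 ≤ Y →
    (∀ j ∈ Finset.Icc Y (2 * Y), ∀ D ∈ Finset.Ico Y (2 * Y),
      Summable (fun i => ‖(α i j : ℂ) * ρ i D‖)) →
    ∑ D ∈ Finset.Ico Y (2 * Y), ‖∑' i, (α i D : ℂ) * ρ i D‖ ^ 2 ≤
      2 * ∑ D ∈ Finset.Ico Y (2 * Y), ‖∑' i, (α i (2 * Y) : ℂ) * ρ i D‖ ^ 2 +
      2 * Y * ∑ j ∈ Finset.Ico Y (2 * Y), ∑ D ∈ Finset.Ico Y (2 * Y),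
        ‖∑' i, ((α i (j + 1) - α i j : ℝ) : ℂ) * ρ i D‖ ^ 2

/-! ### Analytic tools -/

/-- (MIK) the inequality of Minkowski for infinite sums. -/
def T_MIK : Prop :=
  ∀ (ι : Type) [Countable ι] (s : Finset ℕ) (F : ι → ℕ → ℝ) (b : ι → ℝ), (∀ i, 0 ≤ b i) →
    Summable b → (∀ i, ∑ D ∈ s, F i D ^ 2 ≤ b i ^ 2) →
    (∀ D ∈ s, Summable (fun i => |F i D|)) ∧ ∑ D ∈ s, (∑' i, |F i D|) ^ 2 ≤ (∑' i, b i) ^ 2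

/-- (DVB) the divisor bound. -/
def T_DVB : Prop :=
  ∀ ε : ℝ, 0 < ε → ∃ C : ℝ, 0 < C ∧ ∀ n : ℕ, 1 ≤ n →
    tau n ≤ C * (n : ℝ) ^ ε ∧ tau n * tau (2 * n) ≤ C * (n : ℝ) ^ ε ∧
      (4 : ℝ) ^ n.primeFactors.card ≤ C * (n : ℝ) ^ ε

/-- (SEX) sums of powers times exponentials. -/
def T_SEX : Prop :=
  ∀ r δ : ℝ, -1 < r → 0 ≤ δ → ∃ C : ℝ, 0 < C ∧ ∀ x : ℝ, 0 < x →
    Summable (fun n : ℕ => ((n : ℝ) + 1) ^ r * Real.exp (-(x * ((n : ℝ) + 1)))) ∧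
    ∑' n : ℕ, ((n : ℝ) + 1) ^ r * Real.exp (-(x * ((n : ℝ) + 1))) ≤ C * x ^ (-(r + 1 + δ))

/-- (DYS) dyadic sums. -/
def T_DYS : Prop :=
  ∀ s : ℝ, 0 < s → ∃ C : ℝ, 0 < C ∧ ∀ t c : ℝ, 0 < t → 0 < c →
    Summable (fun j : ℕ => ((2 : ℝ) ^ j * t) ^ s * Real.exp (-(c * ((2 : ℝ) ^ j * t)))) ∧
    ∑' j : ℕ, ((2 : ℝ) ^ j * t) ^ s * Real.exp (-(c * ((2 : ℝ) ^ j * t))) ≤ C * c ^ (-s)

/-! ### The mean square of the oscillating sum -/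

/-- (DEC) the decomposition into blocks. -/
def T_DEC : Prop :=
  ∀ (a e m Y : ℕ) (K : ℝ) (β : ℕ → ℕ → ℝ), 1 ≤ a → 1 ≤ e → 1 ≤ m → 1 ≤ Y → 0 ≤ K →
    CB K a e m Y β → ∀ D : ℕ,
    Summable (fun i : ℕ × ℕ => ‖(β i.1 i.2 : ℂ) * rs i.2 i.1 D‖) ∧
    (Summable (fun x : ℕ × ℕ => ‖Fb β a x.1 x.2 D‖) →
      ∑' i : ℕ × ℕ, (β i.1 i.2 : ℂ) * rs i.2 i.1 D = ∑' x : ℕ × ℕ, Fb β a x.1 x.2 D)

/-- (BLK) the mean square of a block. -/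
def T_BLK : Prop :=
  ∀ ε : ℝ, 0 < ε → ε < 1 → ∃ C : ℝ, 0 < C ∧
    ∀ (a e m Y j d : ℕ) (K : ℝ) (β : ℕ → ℕ → ℝ), 1 ≤ a → 1 ≤ e → 1 ≤ m → 1 ≤ Y → 0 ≤ K →
      CB K a e m Y β →
      ∑ D ∈ Finset.Ico Y (2 * Y), ‖Fb β a j d D‖ ^ 2 ≤ (C * K * Bb ε a e m Y j d) ^ 2

/-- (BSM) the sum over the blocks. -/
def T_BSM : Prop :=
  ∀ ε : ℝ, 0 < ε → ε < 1 → ∃ C : ℝ, 0 < C ∧ ∀ a e m Y : ℕ, 1 ≤ a → 1 ≤ e → 1 ≤ m → 1 ≤ Y →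
    m ≤ a * e ^ 2 → Summable (fun x : ℕ × ℕ => Bb ε a e m Y x.1 x.2) ∧
    ∑' x : ℕ × ℕ, Bb ε a e m Y x.1 x.2 ≤
      C * (Y : ℝ) ^ (1 / 4 + ε / 4) / e * ((m : ℝ) / (e : ℝ) ^ 2) ^ (3 * ε / 2) *
        (1 + Real.sqrt (a / Real.sqrt Y))

/-- (LBD) the mean square of a sum with fixed coefficients. -/
def T_LBD : Prop :=
  ∀ ε : ℝ, 0 < ε → ε < 1 → ∃ C : ℝ, 0 < C ∧
    ∀ (a e m Y : ℕ) (K : ℝ) (β : ℕ → ℕ → ℝ), 1 ≤ a → 1 ≤ e → 1 ≤ m → 1 ≤ Y → 0 ≤ K →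
      m ≤ a * e ^ 2 → CB K a e m Y β →
      ∑ D ∈ Finset.Ico Y (2 * Y), ‖∑' i : ℕ × ℕ, (β i.1 i.2 : ℂ) * rs i.2 i.1 D‖ ^ 2 ≤
        C * K ^ 2 * (Y : ℝ) ^ (1 / 2 + ε) * (m : ℝ) ^ ε * (e : ℝ) ^ (-(2 + ε)) *
          (1 + a / Real.sqrt Y)

/-- (UAA) the oscillating sum in terms of the `aa`. -/
def T_UAA : Prop :=
  ∀ a e m D : ℕ, 1 ≤ a → 1 ≤ e → 1 ≤ m → 1 ≤ D →
    Summable (fun i : ℕ × ℕ => ‖if a ∣ i.1 then aa e m i.1 i.2 D else 0‖) ∧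
    UU a e m D = (∑' i : ℕ × ℕ, if a ∣ i.1 then aa e m i.1 i.2 D else 0).re

/-- (UAB) absolute convergence of the sum of the coefficients. -/
def T_UAB : Prop :=
  ∀ e m D : ℕ, 1 ≤ e → 1 ≤ m → 1 ≤ D →
    Summable (fun i : ℕ × ℕ => |ac e m i.1 i.2 D| * (i.1 : ℝ))

/-- (UMS) the mean square of the oscillating sum. -/
def T_UMS : Prop :=
  ∀ ε : ℝ, 0 < ε → ε < 1 → ∃ C : ℝ, 0 < C ∧ ∀ a e m Y : ℕ, 1 ≤ a → 1 ≤ e → 1 ≤ m → 1 ≤ Y →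
    m ≤ a * e ^ 2 →
    ∑ D ∈ Finset.Ico Y (2 * Y), UU a e m D ^ 2 ≤
      C * (Y : ℝ) ^ (1 / 2 + ε) * (m : ℝ) ^ ε * (e : ℝ) ^ (-(2 + ε)) *
        (1 + a / Real.sqrt Y)

/-! ### The local weights of fundamental discriminants -/

/-- (NRF) the numbers of roots for a fundamental discriminant. -/
def T_NRF : Prop :=
  ∀ (p D A : ℕ) (B C : ℤ), p.Prime → 3 < D → D % 4 = 3 → Squarefree D → 1 ≤ A →
    4 * (A : ℤ) * C - B ^ 2 = D →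
    (nrt p A B C : ℤ) = 1 + chi p D - (if p ∣ A then 1 else 0) ∧
    (nrt (p ^ 2) A B C : ℤ) =
      (if p ∣ D then 0 else 1 + chi p D - (if p ∣ A then 1 else 0)) ∧
    (p ∣ A → (nrt p ((A / p : ℕ) : ℤ) B (p * C) : ℤ) =
      1 + chi p D - (if p ^ 2 ∣ A then 1 else 0))

/-- (NWP) the local weights for a fundamental discriminant. -/
def T_NWP : Prop :=
  ∀ (m₁ m₂ D A e : ℕ) (B C : ℤ), Squarefree m₁ → Squarefree m₂ → 3 < D → D % 4 = 3 →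
    Squarefree D → 1 ≤ A → 1 ≤ e → 4 * (A : ℤ) * C - B ^ 2 = D →
    (Nw m₁ m₂ A B C e : ℝ) = ∏ p ∈ (m₁ * m₂).primeFactors,
      ∑ j ∈ Finset.range 3, if p ^ j ∣ A then uw p D e (tt p m₁ m₂) j else 0

/-- (NWE) the expansion of the weight into congruences for `A`. -/
def T_NWE : Prop :=
  ∀ (m₁ m₂ D e : ℕ), Squarefree m₁ → Squarefree m₂ → 3 < D → D % 4 = 3 → Squarefree D →
    1 ≤ e →
    (∀ (A : ℕ) (B C : ℤ), 1 ≤ A → 4 * (A : ℤ) * C - B ^ 2 = D →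
      (Nw m₁ m₂ A B C e : ℝ) =
        ∑ a ∈ (m₁ * m₂).divisors, if a ∣ A then cf m₁ m₂ D e a else 0) ∧
    ∀ a ∈ (m₁ * m₂).divisors, |cf m₁ m₂ D e a| ≤ 4 ^ (m₁ * m₂).primeFactors.card ∧
      (cf m₁ m₂ D e a ≠ 0 → m₁ * m₂ ∣ a * e ^ 2)

/-! ### The oscillating part of the second moment -/

/-- (ZBD) the central value and its constant term grow at most polynomially. -/
def T_ZBD : Prop :=
  ∃ (C : ℝ) (k : ℕ), 0 < C ∧ ∀ A B Δ : ℝ, 1 ≤ A → 1 ≤ Δ →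
    |zf A B Δ| ≤ C * (A + Δ) ^ k ∧ |ct A Δ| ≤ C * (A + Δ) ^ k

/-- (USM) absolute convergence of the unfolded sums. -/
def T_USM : Prop :=
  ∀ m D k : ℕ, 1 ≤ m → 1 ≤ D →
    Summable (fun p : ℕ × ℕ => |Vk ((p.1 : ℝ) ^ 2 * p.2 / ((m : ℝ) * Real.sqrt D))| /
      Real.sqrt ((p.1 : ℝ) ^ 2 * p.2) * (p.2 : ℝ) ^ k)

/-- (UFS) the oscillating part for one discriminant. -/
def T_UFS : Prop :=
  ∀ (m₁ m₂ D : ℕ), Squarefree m₁ → Squarefree m₂ → 3 < D → D % 4 = 3 → Squarefree D →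
    Summable (fun x : ℕ × ℕ => if 1 ≤ x.1 ∧ x.2 ∈ (m₁ * m₂).divisors then
      cf m₁ m₂ D x.1 x.2 * UU x.2 x.1 (m₁ * m₂) D else 0) ∧
    Uf m₁ m₂ D - Uc m₁ m₂ D = ∑' x : ℕ × ℕ, if 1 ≤ x.1 ∧ x.2 ∈ (m₁ * m₂).divisors then
      cf m₁ m₂ D x.1 x.2 * UU x.2 x.1 (m₁ * m₂) D else 0

/-- (UFM) the mean square of the oscillating part for one pair `m₁`, `m₂`. -/
def T_UFM : Prop :=
  ∀ ε : ℝ, 0 < ε → ε < 1 → ∃ C : ℝ, 0 < C ∧ ∀ m₁ m₂ Y : ℕ, Squarefree m₁ → Squarefree m₂ → 1 ≤ Y →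
    ∑ D ∈ (Finset.Ico Y (2 * Y)).filter (fun D => 3 < D ∧ D % 4 = 3 ∧ Squarefree D),
      (Uf m₁ m₂ D - Uc m₁ m₂ D) ^ 2 ≤
        C * (Y : ℝ) ^ (1 / 2 + ε) * ((m₁ : ℝ) * m₂) ^ ε * (1 + (m₁ : ℝ) * m₂ / Real.sqrt Y)

/-- (CDB) the mollifier coefficients are bounded. -/
def T_CDB : Prop :=
  ∀ (P : Polynomial ℝ) (N : ℕ), 1 ≤ N → ∃ C : ℝ, 0 < C ∧ ∀ (M : ℝ) (Δ : ℤ) (m : ℕ), 1 ≤ M →
    |CD P M N Δ m| ≤ C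

/-- (UFN) the oscillating part of the mollified second moment is negligible in mean square. -/
def T_UFN : Prop :=
  ∀ (P : Polynomial ℝ) (N : ℕ) (θ η : ℝ), 1 ≤ N → 0 < θ → θ < 1 / 8 → 0 < η →
    ∃ (δ X₀ : ℝ), 0 < δ ∧ ∀ X : ℝ, X₀ ≤ X →
      ∑ D ∈ (fam X).filter (fun D : ℕ => η * X ≤ D),
        (∑ m₁ ∈ SD (X ^ θ) N, ∑ m₂ ∈ SD (X ^ θ) N,
          CD P (X ^ θ) N D m₁ * CD P (X ^ θ) N D m₂ * (Uf m₁ m₂ D - Uc m₁ m₂ D)) ^ 2 ≤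
        X ^ (1 - δ)

/-! ### Two more targets -/

/-- (GAU) Gauss sums. -/
def T_GAU : Prop :=
  ∀ n A k : ℕ, 1 ≤ A → ‖gs n A k‖ ^ 2 ≤ 2 * A * (Nat.gcd k (2 * A) : ℝ) ∧
    (¬ Nat.gcd k (2 * A) ∣ 2 * n → gs n A k = 0)

/-- (SQE) the mean square of an infinite sum. -/
def T_SQE : Prop :=
  ∀ (s : Finset ℕ) (a : ℕ × ℕ → ℕ → ℂ) (b : (ℕ × ℕ) × (ℕ × ℕ) → ℝ),
    (∀ D ∈ s, Summable (fun i => ‖a i D‖)) → Summable b →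
    (∀ i j, ‖∑ D ∈ s, a i D * (starRingEnd ℂ) (a j D)‖ ≤ b (i, j)) →
    ∑ D ∈ s, ‖∑' i, a i D‖ ^ 2 ≤ ∑' p, b p

end Pool.Agent.H95.AD
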