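import Pool.Agent.H65.AD.TargetsF

/-!
# Almost all discriminants: the proportion of the class group characters
-/

set_option autoImplicit false

open MeasureTheory Set Filter NumberField
open scoped Real nonZeroDivisors

namespace Pool.Agent.H95.ADM

open Pool.Agent.H31.CN Pool.Agent.H95.AD Pool.Agent.H65.AD

lemma card_small (X η : ℝ) (h0 : 0 ≤ η * X) :
    (((fam X).filter (fun D : ℕ => (D : ℝ) < η * X)).card : ℝ) ≤ η * X := by
  have h1 : (fam X).filter (fun D : ℕ => (D : ℝ) < η * X) ⊆ Finset.Icc 1 ⌊η * X⌋₊ := by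
    intro D hD
    rw [Finset.mem_filter] at hD
    unfold fam at hD
    rw [Finset.mem_filter, Finset.mem_Icc] at hD
    rw [Finset.mem_Icc]
    exact ⟨hD.1.1.1, Nat.le_floor hD.2.le⟩
  have h2 := Finset.card_le_card h1
  rw [Nat.card_Icc] at h2
  calc (((fam X).filter (fun D : ℕ => (D : ℝ) < η * X)).card : ℝ) ≤ ((⌊η * X⌋₊ + 1 - 1 : ℕ) : ℝ) := by
        exact_mod_cast h2
    _ = (⌊η * X⌋₊ : ℝ) := by simp
    _ ≤ η * X := Nat.floor_le h0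

open Classical in
theorem pf_AAP (hTVR : T_TVR) (hGAM : T_GAM) (hCHB : T_CHB) (hZVR : T_ZVR) (hOP8 : T_OP8)
    (hPRO : T_PRO) (hCHS : T_CHS) : T_AAP := by
  intro ε hε
  obtain ⟨P, θ, hP5, hθ0, hθ8, hM0, hz0, hopt⟩ := hOP8 (ε / 4) (by positivity)
  obtain ⟨z, hz⟩ : ∃ z, z = P.eval 1 + 1 / (2 * θ) * P.derivative.eval 1 := ⟨_, rfl⟩
  obtain ⟨M₀, hM⟩ : ∃ M₀, M₀ = Mt P (1 / (2 * θ)) := ⟨_, rfl⟩
  rw [← hz, ← hM] at hopt
  rw [← hM] at hM0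
  rw [← hz] at hz0
  obtain ⟨ε₁, hε₁⟩ : ∃ ε₁, ε₁ = min (ε / 4) (ε * M₀ / (4 * (z + 1))) := ⟨_, rfl⟩
  have hz1 : 0 < z + 1 := by positivity
  have hε₁0 : 0 < ε₁ := by
    rw [hε₁]
    exact lt_min (by positivity) (by positivity)
  have hε₁a : ε₁ ≤ ε / 4 := by rw [hε₁]; exact min_le_left _ _
  have hε₁b : ε₁ * (4 * (z + 1)) ≤ ε * M₀ := by
    rw [← le_div_iff₀ (by positivity), hε₁]
    exact min_le_right _ _
  obtain ⟨ε₂, hε₂⟩ : ∃ ε₂, ε₂ = ε₁ ^ 2 * ε / 40 := ⟨_, rfl⟩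
  have hε₂0 : 0 < ε₂ := by rw [hε₂]; positivity
  obtain ⟨R₁, hR₁⟩ := hTVR P θ hP5 hθ0 hθ8 ε₂ hε₂0
  obtain ⟨R₂, hR₂⟩ := hZVR P θ hP5 hθ0 (by linarith) ε₂ hε₂0
  obtain ⟨R₃, hR₃⟩ := hGAM P θ hP5 hθ0 hθ8 ε₁ hε₁0
  obtain ⟨R, hR⟩ : ∃ R, R = max R₁ (max R₂ R₃) := ⟨_, rfl⟩
  obtain ⟨η, hη⟩ : ∃ η, η = min (ε / 20) (1 / 2) := ⟨_, rfl⟩
  have hη0 : 0 < η := by rw [hη]; exact lt_min (by positivity) (by norm_num)
  have hη1 : η < 1 := by rw [hη]; exact lt_of_le_of_lt (min_le_right _ _) (by norm_num)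
  have hηε : η ≤ ε / 20 := by rw [hη]; exact min_le_left _ _
  obtain ⟨X₁, hX₁⟩ := hR₁ R (hR ▸ le_max_left _ _) η hη0 hη1
  obtain ⟨X₂, hX₂⟩ := hR₂ R (hR ▸ (le_max_left _ _).trans (le_max_right _ _)) η hη0 hη1
  obtain ⟨X₃, hX₃⟩ := hR₃ R (hR ▸ (le_max_right _ _).trans (le_max_right _ _))
  obtain ⟨N, hN⟩ : ∃ N, N = primorial R := ⟨_, rfl⟩
  rw [← hN] at hX₁ hX₂ hX₃
  -- the size of the family
  obtain ⟨-, C, hC, hfam⟩ := hCHS
  have hlim : ∀ᶠ X : ℝ in atTop, 1 ≤ X ∧ C * X ^ (3 / 4 : ℝ) ≤ X / 10 := by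
    refine (eventually_ge_atTop 1).and ?_
    have h1 : Tendsto (fun X : ℝ => X ^ (1 / 4 : ℝ)) atTop atTop :=
      tendsto_rpow_atTop (by norm_num)
    filter_upwards [h1.eventually_ge_atTop (10 * C), eventually_ge_atTop 1] with X hX hX1
    have hX0 : 0 < X := by linarith
    have e1 : X = X ^ (3 / 4 : ℝ) * X ^ (1 / 4 : ℝ) := by
      rw [← Real.rpow_add hX0]
      norm_num
    have h2 : 0 < X ^ (3 / 4 : ℝ) := Real.rpow_pos_of_pos hX0 _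
    have h3 : X ^ (3 / 4 : ℝ) * (10 * C) ≤ X ^ (3 / 4 : ℝ) * X ^ (1 / 4 : ℝ) :=
      mul_le_mul_of_nonneg_left hX h2.le
    rw [← e1] at h3
    linarith
  obtain ⟨X₄, hX₄⟩ := eventually_atTop.1 hlim
  refine ⟨max (max X₁ X₂) (max X₃ X₄), fun X hX => ?_⟩
  have hXa : X₁ ≤ X := le_trans (le_trans (le_max_left _ _) (le_max_left _ _)) hX
  have hXb : X₂ ≤ X := le_trans (le_trans (le_max_right _ _) (le_max_left _ _)) hX
  have hXc : X₃ ≤ X := le_trans (le_trans (le_max_left _ _) (le_max_right _ _)) hX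
  have hXd : X₄ ≤ X := le_trans (le_trans (le_max_right _ _) (le_max_right _ _)) hX
  obtain ⟨hX1, hXC⟩ := hX₄ X hXd
  have hcard : X / 10 ≤ (fam X).card := by
    have h1 := (abs_le.1 (hfam X hX1)).1
    have h2 : (1 : ℝ) / 5 ≤ 2 / π ^ 2 := by
      rw [div_le_div_iff₀ (by norm_num) (by positivity)]
      nlinarith [Real.pi_lt_d2, Real.pi_pos]
    have h3 : 1 / 5 * X ≤ 2 / π ^ 2 * X := mul_le_mul_of_nonneg_right h2 (by linarith)
    linarith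
  -- the bad sets
  have b1 := hCHB _ _ _ ε₁ _ hε₁0 (hX₁ X hXa)
  have b2 := hCHB _ _ _ ε₁ _ hε₁0 (hX₂ X hXb)
  have hG := hX₃ X hXc
  obtain ⟨S₁, hS₁⟩ : ∃ S₁, S₁ = (fam X).filter (fun D : ℕ => (D : ℝ) < η * X) := ⟨_, rfl⟩
  obtain ⟨S₂, hS₂⟩ : ∃ S₂, S₂ = (faE η X).filter (fun D => ε₁ ≤ |TD P (X ^ θ) N D -
      Gam P (X ^ θ) N X|) := ⟨_, rfl⟩
  obtain ⟨S₃, hS₃⟩ : ∃ S₃, S₃ = (faE η X).filter (fun D => ε₁ ≤ |ZD P (X ^ θ) N D -
      (P.eval 1 + 1 / (2 * θ) * P.derivative.eval 1)|) := ⟨_, rfl⟩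
  rw [← hS₂] at b1
  rw [← hS₃] at b2
  have b0 : (S₁.card : ℝ) ≤ η * X := by
    rw [hS₁]; exact card_small X η (by positivity)
  intro K _ _ hK
  have hsub : (fam X).filter (fun D => prp (K D) < 61 / 125 - ε) ⊆ S₁ ∪ (S₂ ∪ S₃) := by
    intro D hD
    rw [Finset.mem_filter] at hD
    obtain ⟨hD, hbad⟩ := hD
    by_contra hDS
    rw [Finset.mem_union, Finset.mem_union, not_or, not_or] at hDS
    obtain ⟨n1, n2, n3⟩ := hDS
    have hDη : η * X ≤ D := by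
      by_contra hc
      exact n1 (by rw [hS₁, Finset.mem_filter]; exact ⟨hD, not_le.1 hc⟩)
    have hDE : D ∈ faE η X := by
      unfold faE
      rw [Finset.mem_filter]
      exact ⟨hD, hDη⟩
    have hTD : |TD P (X ^ θ) N D - Gam P (X ^ θ) N X| < ε₁ := by
      by_contra hc
      exact n2 (by rw [hS₂, Finset.mem_filter]; exact ⟨hDE, not_lt.1 hc⟩)
    have hZD : |ZD P (X ^ θ) N D - z| < ε₁ := by
      by_contra hc
      exact n3 (by rw [hS₃, Finset.mem_filter]; exact ⟨hDE, by rw [← hz]; exact not_lt.1 hc⟩)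
    have hDf : 3 < D ∧ D % 4 = 3 ∧ Squarefree D := by
      unfold fam at hD
      exact (Finset.mem_filter.1 hD).2
    obtain ⟨hK1, hK2⟩ := hK D hD
    obtain ⟨p0, -, p2⟩ := hPRO D (K D) (by omega) hDf.2.1 hDf.2.2 hK1 hK2
    have p3 := p2 (SD (X ^ θ) N) (CD P (X ^ θ) N D) (fun m hm => by
      unfold SD at hm
      exact (Finset.mem_filter.1 hm).2.1)
    obtain ⟨Z, hZdef⟩ : ∃ Z, Z = ZD P (X ^ θ) N D := ⟨_, rfl⟩
    obtain ⟨T, hTdef⟩ : ∃ T, T = TD P (X ^ θ) N D := ⟨_, rfl⟩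
    have p4 : Z ^ 2 ≤ prp (K D) * T := by
      rw [hZdef, hTdef]
      exact p3
    rw [← hZdef] at hZD
    rw [← hTdef] at hTD
    rw [← hM] at hG
    have hT : T ≤ M₀ + 2 * ε₁ := by
      have := (abs_lt.1 hTD).2
      linarith
    have hZ2 : z ^ 2 - 2 * z * ε₁ ≤ Z ^ 2 := by
      have e1 : Z ^ 2 = z ^ 2 + 2 * z * (Z - z) + (Z - z) ^ 2 := by ring
      have e2 : -(z * ε₁) ≤ z * (Z - z) := by
        have := mul_le_mul_of_nonneg_left (abs_lt.1 hZD).1.le hz0.le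
        linarith
      nlinarith [sq_nonneg (Z - z)]
    have hpos : 0 < M₀ + 2 * ε₁ := by positivity
    have q1 : Z ^ 2 ≤ prp (K D) * (M₀ + 2 * ε₁) :=
      p4.trans (mul_le_mul_of_nonneg_left hT p0)
    have q2 : prp (K D) * (M₀ + 2 * ε₁) < (61 / 125 - ε) * (M₀ + 2 * ε₁) :=
      mul_lt_mul_of_pos_right hbad hpos
    have q3 : (61 / 125 - ε) * (M₀ + 2 * ε₁) ≤ (61 / 125 - ε) * M₀ + 2 * ε₁ := by
      nlinarith
    have q4 : 2 * z * ε₁ + 2 * ε₁ < 3 * ε / 4 * M₀ := by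
      have : 0 < ε * M₀ := by positivity
      nlinarith
    nlinarith
  have hc1 : (((fam X).filter (fun D => prp (K D) < 61 / 125 - ε)).card : ℝ) ≤
      S₁.card + (S₂.card + S₃.card) := by
    have a0 := Finset.card_le_card hsub
    have a1 := Finset.card_union_le S₁ (S₂ ∪ S₃)
    have a2 := Finset.card_union_le S₂ S₃
    exact_mod_cast a0.trans (a1.trans (by omega))
  have hε₂' : ε₂ * X / ε₁ ^ 2 = ε / 40 * X := by
    rw [hε₂]
    field_simp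
  rw [hε₂'] at b1 b2
  have h2 : η * X ≤ ε / 20 * X := mul_le_mul_of_nonneg_right hηε (by linarith)
  have h3 : ε * (X / 10) ≤ ε * (fam X).card := mul_le_mul_of_nonneg_left hcard hε.le
  linarith

end Pool.Agent.H95.ADM
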