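import Pool.Agent.H65.AD.TargetsF
import Pool.Agent.H63.CN.MU3

/-!
# Almost all discriminants: the smoothed sum of the Möbius function with coprimality
-/

set_option autoImplicit false

open MeasureTheory Set Filter
open scoped Real

namespace Pool.Agent.H95.ADM

open Pool.Agent.H31.CN Pool.Agent.H65.AD Pool.Agent.H63.CN

theorem h34_tsum (N : ℕ) :
    ∑' b : ℕ, |hNf N b| * (b : ℝ) ^ (-(3 / 4) : ℝ) =
      ∏ p ∈ N.primeFactors, (1 - (p : ℝ) ^ (-(3 / 4) : ℝ))⁻¹ := by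
  have h1 := (EulerProduct.summable_and_hasSum_factoredNumbers_prod_filter_prime_geometric
    (f := f34) (fun {p} hp => by
      change ‖(p : ℝ) ^ (-(3 / 4) : ℝ)‖ < 1
      rw [Real.norm_of_nonneg (by positivity)]
      exact Real.rpow_lt_one_of_one_lt_of_neg (by exact_mod_cast hp.one_lt) (by norm_num))
    N.primeFactors).2
  have h2 : N.primeFactors.filter Nat.Prime = N.primeFactors :=
    Finset.filter_true_of_mem fun p hp => Nat.prime_of_mem_primeFactors hp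
  rw [h2] at h1
  have h3 : ∏ p ∈ N.primeFactors, (1 - (p : ℝ) ^ (-(3 / 4) : ℝ))⁻¹ =
      ∏ p ∈ N.primeFactors, (1 - f34 p)⁻¹ := rfl
  rw [h3, ← h1.tsum_eq, tsum_subtype (Nat.factoredNumbers N.primeFactors) (fun m : ℕ => f34 m)]
  refine tsum_congr fun b => ?_
  unfold hNf
  by_cases hb : b ∈ Nat.factoredNumbers N.primeFactors
  · rw [Set.indicator_of_mem hb, Set.indicator_of_mem hb, abs_one, one_mul]
    rfl
  · rw [Set.indicator_of_notMem hb, Set.indicator_of_notMem hb, abs_zero, zero_mul]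

theorem local34 {p : ℕ} (hp : p.Prime) :
    0 ≤ (1 - (p : ℝ) ^ (-(3 / 4) : ℝ))⁻¹ ∧
      (1 - (p : ℝ) ^ (-(3 / 4) : ℝ))⁻¹ ≤ 1 + 30 / Real.sqrt p := by
  have hp2 : (2 : ℝ) ≤ p := by exact_mod_cast hp.two_le
  have hp0 : (0 : ℝ) < p := by linarith
  obtain ⟨s, hs⟩ : ∃ s : ℝ, s = (p : ℝ) ^ (1 / 4 : ℝ) := ⟨_, rfl⟩
  have hs0 : 0 < s := by rw [hs]; exact Real.rpow_pos_of_pos hp0 _
  have hs4 : s ^ 4 = p := by
    rw [hs, ← Real.rpow_natCast, ← Real.rpow_mul hp0.le]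
    norm_num
  have hs1 : 1.1 ≤ s := by
    by_contra hc
    rw [not_le] at hc
    have h1 : s ^ 4 ≤ 1.1 ^ 4 := pow_le_pow_left₀ hs0.le hc.le 4
    rw [hs4] at h1
    norm_num at h1
    linarith
  have h2 : (p : ℝ) ^ (-(3 / 4) : ℝ) = 1 / s ^ 3 := by
    rw [hs, ← Real.rpow_natCast, ← Real.rpow_mul hp0.le, Real.rpow_neg hp0.le, one_div]
    norm_num
  have h3 : Real.sqrt p = s ^ 2 := by
    rw [← hs4, show s ^ 4 = (s ^ 2) ^ 2 by ring, Real.sqrt_sq (by positivity)]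
  have h4 : 1.331 ≤ s ^ 3 := by
    have : (1.1 : ℝ) ^ 3 ≤ s ^ 3 := pow_le_pow_left₀ (by norm_num) hs1 3
    norm_num at this
    linarith
  rw [h2, h3]
  have h5 : 0 < s ^ 3 - 1 := by linarith
  have h6 : (1 - 1 / s ^ 3)⁻¹ = s ^ 3 / (s ^ 3 - 1) := by
    field_simp
  rw [h6]
  refine ⟨by positivity, ?_⟩
  have h7 : s ^ 3 / (s ^ 3 - 1) = 1 + 1 / (s ^ 3 - 1) := by
    field_simp
    ring
  rw [h7]
  have h8 : 1 / (s ^ 3 - 1) ≤ 30 / s ^ 2 := by
    rw [div_le_div_iff₀ h5 (by positivity), one_mul]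
    nlinarith [mul_pos hs0 hs0]
  linarith

theorem h34_le (N : ℕ) : ∑' b : ℕ, |hNf N b| * (b : ℝ) ^ (-(3 / 4) : ℝ) ≤ Ef N := by
  rw [h34_tsum]
  unfold Ef
  exact Finset.prod_le_prod (fun p hp => (local34 (Nat.prime_of_mem_primeFactors hp)).1)
    fun p hp => (local34 (Nat.prime_of_mem_primeFactors hp)).2

theorem pf_BMU (hMU1 : T_MU1) : T_BMU := by
  intro k hk
  obtain ⟨k', rfl⟩ : ∃ k', k = k' + 2 := ⟨k - 2, by omega⟩
  obtain ⟨C1, hC1, h1⟩ := hMU1 (k' + 2) (by omega)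
  refine ⟨C1 + |(k' : ℝ) + 2| * (4 * (k' + 1)), by positivity, fun q y hq hy => ?_⟩
  have h3 : ∀ y : ℝ, 1 ≤ y → |Lam mr (lg (k' + 2)) y - ((k' : ℝ) + 2) * lg (k' + 1) y| ≤
      C1 * (1 + Real.log y) ^ k' := by
    intro y hy
    have := h1 y hy
    push_cast at this
    exact this
  have h4 := conv_asymp hC1.le h3 (hNf_zero q) (hNf_summable q) hy
  rw [hNf_tsum] at h4
  have h5 : Lam (cv mr (hNf q)) (lg (k' + 2)) y =
      ∑ n ∈ (Finset.Icc 1 ⌊y⌋₊).filter (fun n => Nat.Coprime n q),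
        mr n / n * Real.log (y / n) ^ (k' + 2) := by
    unfold Lam
    rw [Finset.sum_filter]
    refine Finset.sum_congr rfl fun n _ => ?_
    rw [cv_mr_hNf (by omega)]
    unfold cN lg
    split_ifs
    · rfl
    · simp
  rw [h5] at h4
  have hL := Real.log_nonneg hy
  have e1 : k' + 2 - 1 = k' + 1 := by omega
  have e2 : k' + 2 - 2 = k' := by omega
  rw [e1, e2]
  have h6 : (∏ p ∈ q.primeFactors, (1 - 1 / (p : ℝ))⁻¹) * ((k' + 2 : ℕ) : ℝ) *
      Real.log y ^ (k' + 1) = (∏ p ∈ q.primeFactors, (1 - 1 / (p : ℝ))⁻¹) *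
        (((k' : ℝ) + 2) * lg (k' + 1) y) := by
    unfold lg
    push_cast
    ring
  rw [h6]
  refine h4.trans ?_
  refine mul_le_mul_of_nonneg_right ?_ (by positivity)
  exact mul_le_mul_of_nonneg_left (h34_le q) (by positivity)

end Pool.Agent.H95.ADM
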