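import Pool.Agent.H65.AD.TargetsF
import Pool.Agent.H86.CN.SM1

/-!
# Almost all discriminants: the smooth sum over the fundamental discriminants
-/

set_option autoImplicit false

open MeasureTheory Set Filter
open scoped Real

namespace Pool.Agent.H95.ADM

open Pool.Agent.H31.CN Pool.Agent.H65.AD

theorem pf_FGS (hCHS : T_CHS) : T_FGS := by
  intro G η _ hG hGs ε hε
  obtain ⟨K, hK, hb⟩ := Pool.Agent.H86.CN.count_bd (η := η) hCHS hG hGs
  obtain ⟨X₁, hX₁⟩ := eventually_atTop.1
    (Pool.Agent.H86.CN.ev_pow (e := 3 / 4) (K := K) (δ := ε) (by norm_num) hε hK.le)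
  refine ⟨max 1 X₁, fun X hX => ?_⟩
  have h1 := hb X ((le_max_left _ _).trans hX)
  have h2 := hX₁ X ((le_max_right _ _).trans hX)
  refine le_trans (le_of_eq ?_) (h1.trans h2)
  congr 1
  ring

end Pool.Agent.H95.ADM
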