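import Pool.Agent.H65.AD.TargetsF
import Pool.Agent.H31.CN.SMO

/-!
# Almost all discriminants: the constant value of the second moment
-/

set_option autoImplicit false

open MeasureTheory Set Filter NumberField
open scoped Real nonZeroDivisors

namespace Pool.Agent.H95.ADM

open Pool.Agent.H31.CN Pool.Agent.H95.AD Pool.Agent.H65.AD

theorem gam_num {c I M₀ ε : ℝ} (hc : 0 < c) (hI : 0 < I) (hM : 0 ≤ M₀) (hε : 0 < ε) :
    ∃ δ ε₃ ε₄ ε₅ : ℝ, 0 < δ ∧ 0 < ε₃ ∧ 0 < ε₄ ∧ 0 < ε₅ ∧ ∀ g u v s t : ℝ,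
      |u - 1| ≤ δ → |v - c| ≤ δ → |s - I * (v * u * M₀)| ≤ ε₃ → c * I - ε₅ ≤ t → t ≤ 1 →
      g * t ≤ s + ε₄ → g ≤ M₀ + ε := by
  have hg0 : 0 < ε * c * I := by positivity
  set B : ℝ := I * (c + 2) * (M₀ + 1) with hB
  have hB0 : 0 < B := by positivity
  refine ⟨min 1 (ε * c * I / (4 * B)), ε * c * I / 4, ε * c * I / 4,
    ε * c * I / (4 * (M₀ + ε)), by positivity, by positivity, by positivity, by positivity,
    fun g u v s t h2 h3 h4 h5 h5' h6 => ?_⟩
  set δ := min 1 (ε * c * I / (4 * B)) with hδ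
  have hδ0 : 0 < δ := by positivity
  have hδ1 : δ ≤ 1 := min_le_left _ _
  have hδ2 : B * δ ≤ ε * c * I / 4 := by
    have : δ ≤ ε * c * I / (4 * B) := min_le_right _ _
    calc B * δ ≤ B * (ε * c * I / (4 * B)) := mul_le_mul_of_nonneg_left this hB0.le
      _ = ε * c * I / 4 := by field_simp
  have hu0 : 0 ≤ u := by
    have := (abs_le.1 h2).1
    linarith
  have hu1 : u ≤ 1 + δ := by
    have := (abs_le.1 h2).2
    linarith
  have hv1 : v ≤ c + δ := by
    have := (abs_le.1 h3).2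
    linarith
  have hvu : v * u ≤ c + δ * (c + 2) := by
    calc v * u ≤ (c + δ) * u := mul_le_mul_of_nonneg_right hv1 hu0
      _ ≤ (c + δ) * (1 + δ) := mul_le_mul_of_nonneg_left hu1 (by positivity)
      _ = c + δ * (c + 1 + δ) := by ring
      _ ≤ c + δ * (c + 2) := by
        have := mul_le_mul_of_nonneg_left (show c + 1 + δ ≤ c + 2 by linarith) hδ0.le
        linarith
  have hs : s ≤ I * ((c + δ * (c + 2)) * M₀) + ε * c * I / 4 := by
    have h12 := (abs_le.1 h4).2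
    have h13 : I * (v * u * M₀) ≤ I * ((c + δ * (c + 2)) * M₀) :=
      mul_le_mul_of_nonneg_left (mul_le_mul_of_nonneg_right hvu hM) hI.le
    linarith
  by_contra hcon
  rw [not_le] at hcon
  have hMε : 0 < M₀ + ε := by positivity
  have ht5 : (M₀ + ε) * (ε * c * I / (4 * (M₀ + ε))) = ε * c * I / 4 := by
    field_simp
  have ht : 0 < t := by
    have : ε * c * I / (4 * (M₀ + ε)) ≤ c * I / 4 := by
      rw [div_le_div_iff₀ (by positivity) (by norm_num)]
      have : 0 ≤ c * I * M₀ := by positivity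
      nlinarith
    have h7 : 0 < c * I := by positivity
    linarith
  have h8 : (M₀ + ε) * t < g * t := mul_lt_mul_of_pos_right hcon ht
  have h9 : (M₀ + ε) * (c * I - ε * c * I / (4 * (M₀ + ε))) ≤ (M₀ + ε) * t :=
    mul_le_mul_of_nonneg_left h5 hMε.le
  have h10 : I * (δ * (c + 2) * M₀) ≤ B * δ := by
    rw [hB]
    have : 0 ≤ I * (c + 2) * δ := by positivity
    nlinarith
  have h11 : (M₀ + ε) * (c * I - ε * c * I / (4 * (M₀ + ε))) =
      (M₀ + ε) * (c * I) - ε * c * I / 4 := by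
    rw [mul_sub, ht5]
  nlinarith

open Classical in
theorem pf_GAM (hTVR : T_TVR) (hTPS : T_TPS) (hBUM : T_BUM) (hFGS : T_FGS) (hSM2 : T_SM2)
    (hCRR : T_CRR) : T_GAM := by
  intro P θ hP hθ hθ8 ε hε
  obtain ⟨G, hG, hGs, hG01, hI⟩ := hBUM
  set I : ℝ := ∫ u in Ioi (0 : ℝ), G u with hIdef
  have hM0 : 0 ≤ Mt P (1 / (2 * θ)) := by
    unfold Mt
    have : 0 ≤ ∫ t in (0 : ℝ)..1, P.derivative.derivative.eval t ^ 2 :=
      intervalIntegral.integral_nonneg zero_le_one fun t _ => sq_nonneg _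
    positivity
  obtain ⟨δ, ε₃, ε₄, ε₅, hδ, hε₃, hε₄, hε₅, hnum⟩ := gam_num (c := 2 / π ^ 2) (by positivity) hI hM0 hε
  obtain ⟨R₁, hR₁⟩ := hCRR δ hδ
  obtain ⟨R₂, hR₂⟩ := hTVR P θ hP hθ hθ8 (ε₄ ^ 2) (by positivity)
  refine ⟨max (max R₁ R₂) 2, fun R hR => ?_⟩
  have hRa : R₁ ≤ R := ((le_max_left _ _).trans (le_max_left _ _)).trans hR
  have hRb : R₂ ≤ R := ((le_max_right _ _).trans (le_max_left _ _)).trans hR
  have hRc : 2 ≤ R := (le_max_right _ _).trans hR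
  obtain ⟨hc1, hc2⟩ := hR₁ R hRa
  obtain ⟨X₁, hX₁⟩ := hR₂ R hRb (1 / 2) (by norm_num) (by norm_num)
  have hN1 : 1 ≤ primorial R := primorial_pos _
  have hN2 : 2 ∣ primorial R := prim_two hRc
  have hNs : Squarefree (primorial R) := prim_sq _
  obtain ⟨N, hN⟩ : ∃ N, N = primorial R := ⟨_, rfl⟩
  rw [← hN] at hc1 hc2 hX₁ hN1 hN2 hNs ⊢
  obtain ⟨X₂, hX₂⟩ := hSM2 G (1 / 2) (by norm_num) hG hGs P N θ ε₃ hP hN1 hN2 hNs hθ
    (by linarith) hε₃
  obtain ⟨X₃, hX₃⟩ := hFGS G (1 / 2) (by norm_num) hG hGs ε₅ hε₅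
  refine ⟨max 1 (max X₁ (max X₂ X₃)), fun X hX => ?_⟩
  have hXa : 1 ≤ X := (le_max_left _ _).trans hX
  have hXb : X₁ ≤ X := ((le_max_left _ _).trans (le_max_right _ _)).trans hX
  have hXc : X₂ ≤ X := (((le_max_left _ _).trans (le_max_right _ _)).trans
    (le_max_right _ _)).trans hX
  have hXd : X₃ ≤ X := (((le_max_right _ _).trans (le_max_right _ _)).trans
    (le_max_right _ _)).trans hX
  have hX0 : 0 < X := by linarith
  have h1 := hX₁ X hXb
  have h2 := hX₂ X hXc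
  have h3 := hX₃ X hXd
  by_cases hg : Gam P (X ^ θ) N X ≤ 0
  · linarith
  rw [not_le] at hg
  obtain ⟨g, hgdef⟩ : ∃ g, g = Gam P (X ^ θ) N X := ⟨_, rfl⟩
  rw [← hgdef] at hg h1 ⊢
  obtain ⟨T, hT⟩ : ∃ T : ℕ → ℝ, T = fun D => TD P (X ^ θ) N D := ⟨_, rfl⟩
  have hTn : ∀ D : ℕ, 0 < D → 0 ≤ T D := by
    intro D hD
    rw [hT]
    exact hTPS P (X ^ θ) N D hD
  obtain ⟨S₂, hS₂⟩ : ∃ S₂, S₂ = ∑' D : ℕ, if good N D then G (D / X) * T D else 0 := ⟨_, rfl⟩
  have h2' : |S₂ - X * I * (dR N * ((∏ p ∈ N.primeFactors, (1 - 1 / (p : ℝ)) ^ 3) * Sg N) *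
      Mt P (1 / (2 * θ)))| ≤ ε₃ * X := by
    rw [hS₂, hT]
    exact h2
  have hterm : ∀ D : ℕ, 0 ≤ if good N D then G (D / X) * T D else 0 := by
    intro D
    split_ifs with hgd
    · refine mul_nonneg (hG01 _).1 (hTn D ?_)
      have := hgd.1
      omega
    · exact le_rfl
  have hle : ∑ D ∈ fam X, G (D / X) * T D ≤ S₂ := by
    have hsum : Summable (fun D : ℕ => if good N D then G (D / X) * T D else 0) := by
      refine summable_of_ne_finset_zero (s := Finset.range (⌊X⌋₊ + 1)) fun D hD => ?_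
      have : G ((D : ℕ) / X) = 0 := by
        apply hGs
        rw [mem_Icc, not_and, not_le]
        intro _
        rw [lt_div_iff₀ hX0, one_mul]
        rw [Finset.mem_range, not_lt] at hD
        exact (Nat.lt_floor_add_one X).trans_le (by exact_mod_cast hD)
      rw [this, zero_mul, ite_self]
    rw [hS₂]
    refine (le_of_eq ?_).trans (hsum.sum_le_tsum (fam X) (fun D _ => hterm D))
    refine Finset.sum_congr rfl fun D hD => ?_
    rw [if_pos (fam_good hD N)]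
  -- the lower bound
  have hlow : g * ∑ D ∈ fam X, G (D / X) - ∑ D ∈ faE (1 / 2) X, |T D - g| ≤
      ∑ D ∈ fam X, G (D / X) * T D := by
    have e1 : ∑ D ∈ faE (1 / 2) X, |T D - g| =
        ∑ D ∈ fam X, if (1 / 2) * X ≤ (D : ℝ) then |T D - g| else 0 := by
      unfold faE
      rw [Finset.sum_filter]
    rw [e1, Finset.mul_sum, ← Finset.sum_sub_distrib]
    refine Finset.sum_le_sum fun D hD => ?_
    by_cases hc : (1 / 2) * X ≤ (D : ℝ)
    · rw [if_pos hc]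
      obtain ⟨g1, g2⟩ := hG01 (D / X)
      have a1 := neg_abs_le (T D - g)
      have a2 : G (D / X) * |T D - g| ≤ 1 * |T D - g| :=
        mul_le_mul_of_nonneg_right g2 (abs_nonneg _)
      have a3 : G (D / X) * (-|T D - g|) ≤ G (D / X) * (T D - g) :=
        mul_le_mul_of_nonneg_left a1 g1
      linarith
    · rw [if_neg hc]
      have : G ((D : ℕ) / X) = 0 := by
        apply hGs
        rw [mem_Icc, not_and_or, not_le]
        left
        rw [div_lt_iff₀ hX0]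
        exact not_le.1 hc
      rw [this]
      simp
  have hcardE : ((faE (1 / 2) X).card : ℝ) ≤ X := by
    have a1 : (faE (1 / 2) X).card ≤ (fam X).card := Finset.card_filter_le _ _
    have a2 : (fam X).card ≤ ⌊X⌋₊ := by
      unfold fam
      refine (Finset.card_filter_le _ _).trans ?_
      rw [Nat.card_Icc]
      omega
    calc ((faE (1 / 2) X).card : ℝ) ≤ (⌊X⌋₊ : ℝ) := by exact_mod_cast a1.trans a2
      _ ≤ X := Nat.floor_le hX0.le
  have hCS : ∑ D ∈ faE (1 / 2) X, |T D - g| ≤ ε₄ * X := by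
    have a1 := sq_sum_le_card_mul_sum_sq (s := faE (1 / 2) X) (f := fun D => |T D - g|)
    have a2 : ∑ D ∈ faE (1 / 2) X, |T D - g| ^ 2 ≤ ε₄ ^ 2 * X := by
      simp only [sq_abs]
      rw [hT]
      exact h1
    have a3 : (∑ D ∈ faE (1 / 2) X, |T D - g|) ^ 2 ≤ (ε₄ * X) ^ 2 := by
      refine a1.trans ?_
      have a4 : 0 ≤ ∑ D ∈ faE (1 / 2) X, |T D - g| ^ 2 :=
        Finset.sum_nonneg fun _ _ => sq_nonneg _
      calc ((faE (1 / 2) X).card : ℝ) * ∑ D ∈ faE (1 / 2) X, |T D - g| ^ 2 ≤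
            X * (ε₄ ^ 2 * X) := mul_le_mul hcardE a2 a4 hX0.le
        _ = (ε₄ * X) ^ 2 := by ring
    exact le_of_sq_le_sq a3 (by positivity)
  have hF := abs_le.1 h3
  have hup : ∑ D ∈ fam X, G (D / X) ≤ X := by
    calc ∑ D ∈ fam X, G (D / X) ≤ ∑ D ∈ fam X, (1 : ℝ) :=
          Finset.sum_le_sum fun D _ => (hG01 _).2
      _ = ((fam X).card : ℝ) := by simp
      _ ≤ X := by
        have a2 : (fam X).card ≤ ⌊X⌋₊ := by
          unfold fam
          refine (Finset.card_filter_le _ _).trans ?_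
          rw [Nat.card_Icc]
          omega
        calc ((fam X).card : ℝ) ≤ (⌊X⌋₊ : ℝ) := by exact_mod_cast a2
          _ ≤ X := Nat.floor_le hX0.le
  refine hnum g _ _ (S₂ / X) ((∑ D ∈ fam X, G (D / X)) / X) hc1 hc2 ?_ ?_ ?_ ?_
  · have e : S₂ / X - I * (dR N * ((∏ p ∈ N.primeFactors, (1 - 1 / (p : ℝ)) ^ 3) * Sg N) *
        Mt P (1 / (2 * θ))) =
        (S₂ - X * I * (dR N * ((∏ p ∈ N.primeFactors, (1 - 1 / (p : ℝ)) ^ 3) * Sg N) *
        Mt P (1 / (2 * θ)))) / X := by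
      rw [sub_div, mul_assoc X, mul_div_assoc X, mul_comm X, div_mul_cancel₀ _ hX0.ne']
    rw [e, abs_div, abs_of_pos hX0, div_le_iff₀ hX0]
    exact h2'
  · rw [le_div_iff₀ hX0]
    have := hF.1
    nlinarith
  · rw [div_le_one hX0]
    exact hup
  · rw [mul_div_assoc', div_add' _ _ _ hX0.ne', div_le_div_iff_of_pos_right hX0]
    linarith

end Pool.Agent.H95.ADM
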