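import Pool.Agent.H65.AD.TargetsB

/-!
# Almost all discriminants: the remaining sum, diagonalised
-/

set_option autoImplicit false

open MeasureTheory Set Filter
open scoped Real

namespace Pool.Agent.H95.ADM

open Pool.Agent.H31.CN Pool.Agent.H65.AD

theorem cw_sf {P : Polynomial ℝ} {M : ℝ} {N w s m : ℕ} (hm : ¬ Squarefree m) :
    cw P M N w s m = 0 := by
  unfold cw
  split_ifs
  · unfold cm
    split_ifs
    · have h : ¬ Squarefree (s * m) := fun h => hm (h.squarefree_of_dvd (dvd_mul_left _ _))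
      unfold mr
      rw [ArithmeticFunction.moebius_eq_zero_of_not_squarefree h]
      simp
    · rfl
  · rfl

theorem cw_big {P : Polynomial ℝ} {M : ℝ} {N w s m : ℕ} (hM : 1 ≤ M) (hs : 1 ≤ s)
    (hm : ⌊M⌋₊ < m) : cw P M N w s m = 0 := by
  unfold cw
  split_ifs
  · unfold cm
    rw [if_neg]
    rintro ⟨h1, -⟩
    have h2 : M < m := (Nat.floor_lt (by linarith)).1 hm
    have h3 : (m : ℝ) ≤ ((s * m : ℕ) : ℝ) := by
      exact_mod_cast Nat.le_mul_of_pos_left m hs
    linarith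
  · rfl

theorem pf_QWD (hCNB : T_CNB) : T_QWD := by
  intro P M N w n₁ n₂ hM _ hw h1 h2
  have hw0 : w ≠ 0 := hw.ne_zero
  have hn₁ : 1 ≤ n₁ := Nat.pos_of_dvd_of_pos h1 (Nat.pos_of_ne_zero hw0)
  have hn₂ : 1 ≤ n₂ := Nat.pos_of_dvd_of_pos h2 (Nat.pos_of_ne_zero hw0)
  have h := hCNB (cw P M N w n₁) (cw P M N w n₂) ⌊M⌋₊ (fun m hm => ⟨cw_sf hm, cw_sf hm⟩)
    (fun m hm => ⟨cw_big hM hn₁ hm, cw_big hM hn₂ hm⟩)
  unfold Bw
  rw [← h]
  unfold QW
  rw [Finset.sum_filter]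
  refine Finset.sum_congr rfl fun m₁ _ => ?_
  split_ifs with c1
  · rw [Finset.sum_filter]
    refine Finset.sum_congr rfl fun m₂ _ => ?_
    split_ifs with c2
    · unfold cw
      rw [if_pos c1, if_pos c2]
    · unfold cw
      rw [if_neg c2, mul_zero, zero_smul]
  · refine (Finset.sum_eq_zero fun m₂ _ => ?_).symm
    unfold cw
    rw [if_neg c1, zero_mul, zero_smul]

end Pool.Agent.H95.ADM
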