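import Pool.Agent.H65.AD.TargetsA
import Pool.Agent.H96.CN.NEL

/-!
# Almost all discriminants: the local elements at the small primes
-/

set_option autoImplicit false

open MeasureTheory Set Filter
open scoped Real

namespace Pool.Agent.H95.ADM

open Pool.Agent.H31.CN Pool.Agent.H95.AD Pool.Agent.H50.CN Pool.Agent.H65.AD

theorem ec_le (c j i k : ℕ) : |ec c j i k| ≤ 2 := by
  unfold ec
  split <;> norm_num

theorem qT_le {x : ℤ} (hx : x = 1 ∨ x = 0 ∨ x = -1) (j i k : ℕ) : |qT x j i k| ≤ 4 := by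
  unfold qT
  have h0 := ec_le 0 j i k
  have h1 := ec_le 1 j i k
  have h2 := ec_le 2 j i k
  rcases hx with h | h | h
  · rw [h, if_neg (by norm_num), add_zero]
    push_cast
    rw [one_mul]
    exact (abs_add_le _ _).trans (by linarith)
  · rw [h, if_pos rfl]
    push_cast
    rw [zero_mul, add_zero]
    exact (abs_add_le _ _).trans (by linarith)
  · rw [h, if_neg (by norm_num), add_zero]
    push_cast
    rw [neg_one_mul]
    refine (abs_add_le _ _).trans ?_
    rw [abs_neg]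
    linarith

theorem mo00_mul (r s : GR) : mo 0 0 (r * s) = mo 0 0 r * mo 0 0 s := by
  have h : ∀ t : GR, mo 0 0 t = lin (fun _ => (1 : ℝ)) t := by
    intro t
    have h0 : (fun v : ℝ × ℝ => v.1 ^ 0 * v.2 ^ 0) = fun _ => (1 : ℝ) := by
      funext v
      simp
    unfold mo
    rw [h0]
  rw [h, h, h, lin_mul]
  have h2 : ∀ (a : ℝ) (t : GR), lin (fun _ => a) t = a * lin (fun _ => (1 : ℝ)) t := by
    intro a t
    induction t using GR_induction with
    | h0 => simp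
    | hadd u v hu hv => rw [map_add, map_add, hu, hv, mul_add]
    | hE b x y =>
      rw [map_smul, map_smul, lin_E, lin_E]
      simp only [smul_eq_mul]
      ring
  rw [h2 (lin (fun _ => (1 : ℝ)) s) r, mul_comm]

theorem mo00_prod {ι : Type*} (s : Finset ι) (r : ι → GR) :
    mo 0 0 (∏ i ∈ s, r i) = ∏ i ∈ s, mo 0 0 (r i) := by
  classical
  induction s using Finset.induction_on with
  | empty => simp [mo_one]
  | insert i s hi ih => rw [Finset.prod_insert hi, Finset.prod_insert hi, mo00_mul, ih]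

theorem mo00_gel (q : ℕ → ℕ → ℝ) (j p : ℕ) :
    mo 0 0 (gel q j p) = ∑ i ∈ Finset.range 3, ∑ k ∈ Finset.range 3, q i k / (p : ℝ) ^ (i + k) := by
  unfold gel
  rw [map_sum]
  refine Finset.sum_congr rfl fun i _ => ?_
  rw [map_sum]
  refine Finset.sum_congr rfl fun k _ => ?_
  rw [map_smul, mo_E]
  simp

/-- the local identity -/
theorem loc_id {p : ℕ} (hp : p.Prime) {x : ℤ} (hx : x = 1 ∨ x = 0 ∨ x = -1) :
    (1 + (x : ℝ) / p) ^ 2 * mo 0 0 (gel (qT x 0) 0 p) -
      2 * (1 + (x : ℝ) / p) * mo 0 0 (gel (qT x 1) 1 p) + mo 0 0 (gel (qT x 2) 2 p) =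
      (1 - 1 / (p : ℝ)) ^ 3 := by
  have hp0 : (p : ℝ) ≠ 0 := by exact_mod_cast hp.ne_zero
  rw [mo00_gel, mo00_gel, mo00_gel]
  simp only [Finset.sum_range_succ, Finset.sum_range_zero, qT, ec]
  rcases hx with h | h | h
  · rw [h]
    simp
    field_simp
    ring
  · rw [h]
    simp
    field_simp
    ring
  · rw [h]
    simp
    field_simp
    ring

theorem BD_gel {p j : ℕ} (hp : p.Prime) (hj : j ≤ 2) {q : ℕ → ℕ → ℝ}
    (hq : ∀ i k, |q i k| ≤ 4) : BD 36 (6 * Real.log p) (gel q j p) := by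
  have h1 : (1 : ℝ) ≤ p := by exact_mod_cast hp.one_lt.le
  have hl : 0 ≤ Real.log p := Real.log_nonneg h1
  have hj' : (j : ℝ) ≤ 2 := by exact_mod_cast hj
  have hj0 : (0 : ℝ) ≤ j := Nat.cast_nonneg _
  unfold gel
  have h2 : BD (∑ i ∈ Finset.range 3, ∑ k ∈ Finset.range 3, (4 : ℝ)) (6 * Real.log p)
      (∑ i ∈ Finset.range 3, ∑ k ∈ Finset.range 3, (q i k / (p : ℝ) ^ (i + k)) •
        E (i * Real.log p) (((i : ℝ) + 2 * k - j) * Real.log p)) := by
    refine BD_sum _ fun i hi => BD_sum _ fun k hk => ?_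
    rw [Finset.mem_range] at hi hk
    have hi' : (i : ℝ) ≤ 2 := by exact_mod_cast (by omega : i ≤ 2)
    have hk' : (k : ℝ) ≤ 2 := by exact_mod_cast (by omega : k ≤ 2)
    have hi0 : (0 : ℝ) ≤ i := Nat.cast_nonneg _
    have hk0 : (0 : ℝ) ≤ k := Nat.cast_nonneg _
    refine BD_mono (BD_smul (BD_E (Z := 6 * Real.log p) ?_ ?_) _) ?_ le_rfl
    · rw [abs_mul, abs_of_nonneg hi0, abs_of_nonneg hl]
      exact mul_le_mul_of_nonneg_right (by linarith) hl
    · rw [abs_mul, abs_of_nonneg hl]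
      refine mul_le_mul_of_nonneg_right ?_ hl
      rw [abs_le]
      constructor <;> linarith
    · rw [mul_one, abs_div, abs_of_pos (by positivity : (0 : ℝ) < (p : ℝ) ^ (i + k)),
        div_le_iff₀ (by positivity)]
      have h3 : (1 : ℝ) ≤ (p : ℝ) ^ (i + k) := one_le_pow₀ h1
      have := hq i k
      linarith
  refine BD_mono h2 (le_of_eq ?_) le_rfl
  norm_num

theorem tt_le (p n₁ n₂ : ℕ) : tt p n₁ n₂ ≤ 2 := by
  unfold tt
  split_ifs <;> omega

theorem anx_le {N : ℕ} {x : ℕ → ℤ} (hx : ∀ p ∈ N.primeFactors, x p = 1 ∨ x p = 0 ∨ x p = -1)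
    (n : ℕ) : |anx N x n| ≤ 2 ^ N.primeFactors.card := by
  unfold anx
  rw [Finset.abs_prod, ← Finset.prod_const]
  refine Finset.prod_le_prod (fun _ _ => abs_nonneg _) fun p hp => ?_
  have hpp := Nat.prime_of_mem_primeFactors hp
  have h1 : (1 : ℝ) ≤ p := by exact_mod_cast hpp.one_lt.le
  split_ifs
  · norm_num
  · have h2 : |(x p : ℝ) / p| ≤ 1 := by
      have h3 : |(x p : ℝ)| ≤ 1 := by
        rcases hx p hp with h | h | h <;> simp [h]
      rw [abs_div, abs_of_pos (by linarith : (0 : ℝ) < p), div_le_one (by linarith)]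
      linarith
    exact (abs_add_le _ _).trans (by rw [abs_one]; linarith)

theorem loc_le {q : ℕ → ℕ → ℝ} (hq : ∀ i k, |q i k| ≤ 4) (p e A : ℕ) :
    |loc q p e A| ≤ 36 := by
  unfold loc
  have h : |∑ i ∈ Finset.range 3, ∑ k ∈ Finset.range 3,
      (if p ^ i ∣ A ∧ p ^ k ∣ e then q i k else 0)| ≤
      ∑ i ∈ Finset.range 3, ∑ k ∈ Finset.range 3, (4 : ℝ) := by
    refine (Finset.abs_sum_le_sum_abs _ _).trans (Finset.sum_le_sum fun i _ => ?_)
    refine (Finset.abs_sum_le_sum_abs _ _).trans (Finset.sum_le_sum fun k _ => ?_)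
    split_ifs
    · exact hq i k
    · norm_num
  refine h.trans (le_of_eq ?_)
  norm_num

theorem pf_SGN : T_SGN := by
  classical
  intro N hN hsq
  obtain ⟨w, hw⟩ : ∃ w, w = N.primeFactors.card := ⟨_, rfl⟩
  obtain ⟨V, hV⟩ : ∃ V : ℝ, V = ∑ _n₁ ∈ N.divisors, ∑ _n₂ ∈ N.divisors,
      (2 ^ w * 2 ^ w) * 36 ^ w := ⟨_, rfl⟩
  obtain ⟨Z, hZ⟩ : ∃ Z : ℝ, Z = ∑ p ∈ N.primeFactors, 6 * Real.log p := ⟨_, rfl⟩
  have hV0 : 0 ≤ V := by rw [hV]; positivity
  have hZ0 : 0 ≤ Z := by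
    rw [hZ]
    refine Finset.sum_nonneg fun p hp => ?_
    have h1 : (1 : ℝ) ≤ p := by
      exact_mod_cast (Nat.prime_of_mem_primeFactors hp).one_lt.le
    have := Real.log_nonneg h1
    positivity
  refine ⟨V + Z + 2 ^ w + 36 ^ w, by positivity, fun x hx => ⟨?_, ?_, ?_⟩⟩
  · -- the augmentation
    unfold sN
    rw [map_sum]
    have h1 : ∀ n₁ ∈ N.divisors, mo 0 0 (∑ n₂ ∈ N.divisors, (anx N x n₁ * anx N x n₂) •
        ∏ p ∈ N.primeFactors, gel (qT (x p) (tt p n₁ n₂)) (tt p n₁ n₂) p) =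
        ∏ p ∈ N.primeFactors, (if p ∣ n₁ then
          (-1) * (-1) * mo 0 0 (gel (qT (x p) 2) 2 p) +
            (-1) * (1 + (x p : ℝ) / p) * mo 0 0 (gel (qT (x p) 1) 1 p) else
          (1 + (x p : ℝ) / p) * (-1) * mo 0 0 (gel (qT (x p) 1) 1 p) +
            (1 + (x p : ℝ) / p) * (1 + (x p : ℝ) / p) * mo 0 0 (gel (qT (x p) 0) 0 p)) := by
      intro n₁ _
      rw [map_sum]
      have h2 : ∀ n₂ ∈ N.divisors, mo 0 0 ((anx N x n₁ * anx N x n₂) •
          ∏ p ∈ N.primeFactors, gel (qT (x p) (tt p n₁ n₂)) (tt p n₁ n₂) p) =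
          ∏ p ∈ N.primeFactors, (if p ∣ n₂ then
            (if p ∣ n₁ then (-1) * (-1) * mo 0 0 (gel (qT (x p) 2) 2 p) else
              (1 + (x p : ℝ) / p) * (-1) * mo 0 0 (gel (qT (x p) 1) 1 p)) else
            (if p ∣ n₁ then (-1) * (1 + (x p : ℝ) / p) * mo 0 0 (gel (qT (x p) 1) 1 p) else
              (1 + (x p : ℝ) / p) * (1 + (x p : ℝ) / p) * mo 0 0 (gel (qT (x p) 0) 0 p))) := by
        intro n₂ _
        rw [map_smul, mo00_prod, smul_eq_mul]
        unfold anx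
        rw [← Finset.prod_mul_distrib, ← Finset.prod_mul_distrib]
        refine Finset.prod_congr rfl fun p _ => ?_
        unfold tt
        by_cases c1 : p ∣ n₁ <;> by_cases c2 : p ∣ n₂ <;> simp [c1, c2]
      rw [Finset.sum_congr rfl h2, Pool.Agent.H96.CN.div_sum N hsq]
      refine Finset.prod_congr rfl fun p _ => ?_
      by_cases c1 : p ∣ n₁ <;> simp [c1]
    rw [Finset.sum_congr rfl h1, Pool.Agent.H96.CN.div_sum N hsq]
    unfold rho
    refine Finset.prod_congr rfl fun p hp => ?_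
    rw [← loc_id (Nat.prime_of_mem_primeFactors hp) (hx p hp)]
    ring
  · unfold sN
    have h1 : BD V Z (∑ n₁ ∈ N.divisors, ∑ n₂ ∈ N.divisors, (anx N x n₁ * anx N x n₂) •
        ∏ p ∈ N.primeFactors, gel (qT (x p) (tt p n₁ n₂)) (tt p n₁ n₂) p) := by
      rw [hV]
      refine BD_sum _ fun n₁ _ => BD_sum _ fun n₂ _ => ?_
      have h2 : BD (∏ _p ∈ N.primeFactors, (36 : ℝ)) (∑ p ∈ N.primeFactors, 6 * Real.log p)
          (∏ p ∈ N.primeFactors, gel (qT (x p) (tt p n₁ n₂)) (tt p n₁ n₂) p) := by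
        refine BD_prod _ (fun _ _ => by norm_num) fun p hp => ?_
        exact BD_gel (Nat.prime_of_mem_primeFactors hp) (tt_le _ _ _)
          (fun i k => qT_le (hx p hp) _ i k)
      rw [← hZ, Finset.prod_const, ← hw] at h2
      refine BD_mono (BD_smul h2 _) ?_ le_rfl
      rw [abs_mul]
      have a1 := anx_le hx n₁
      have a2 := anx_le hx n₂
      rw [← hw] at a1 a2
      exact mul_le_mul_of_nonneg_right (mul_le_mul a1 a2 (abs_nonneg _) (by positivity))
        (by positivity)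
    have e1 : (0 : ℝ) ≤ 2 ^ w := by positivity
    have e2 : (0 : ℝ) ≤ 36 ^ w := by positivity
    exact BD_mono h1 (by linarith) (by linarith)
  · intro n₁ n₂ e A
    have e1 : (0 : ℝ) ≤ 2 ^ w := by positivity
    have e2 : (0 : ℝ) ≤ 36 ^ w := by positivity
    constructor
    · have a1 := anx_le hx n₁
      rw [← hw] at a1
      linarith
    · unfold lN
      rw [Finset.abs_prod]
      have h3 : ∏ p ∈ N.primeFactors, |loc (qT (x p) (tt p n₁ n₂)) p e A| ≤
          ∏ _p ∈ N.primeFactors, (36 : ℝ) :=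
        Finset.prod_le_prod (fun _ _ => abs_nonneg _) fun p hp =>
          loc_le (fun i k => qT_le (hx p hp) _ i k) p e A
      rw [Finset.prod_const, ← hw] at h3
      linarith

end Pool.Agent.H95.ADM
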