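import Pool.Agent.H31.CN.FinA
import Pool.Agent.H11.AD.UAB
import Pool.Agent.H11.AD.UFM
import Pool.Agent.H18.AD.CDB
import Pool.Agent.H18.AD.USM
import Pool.Agent.H19.ADU.BVD
import Pool.Agent.H19.ADU.CKS
import Pool.Agent.H19.ADU.DEC
import Pool.Agent.H19.ADU.DYS
import Pool.Agent.H19.ADU.PSV
import Pool.Agent.H25.AD.GVA
import Pool.Agent.H40.AD.LBD
import Pool.Agent.H40.AD.SPC
import Pool.Agent.H42.AD.FEN
import Pool.Agent.H42.AD.FEX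
import Pool.Agent.H46.AD.BSM
import Pool.Agent.H46.AD.NRF
import Pool.Agent.H49.AD.NWP
import Pool.Agent.H56.AD.THX
import Pool.Agent.H56.AD.UFN
import Pool.Agent.H56.AD.UMS
import Pool.Agent.H59.AD.K0D
import Pool.Agent.H59.AD.LSB
import Pool.Agent.H6.AD.DSM
import Pool.Agent.H63.AD.K0M
import Pool.Agent.H63.AD.MIK
import Pool.Agent.H63.AD.SEX
import Pool.Agent.H63.AD.UAA
import Pool.Agent.H68.AD.DVB
import Pool.Agent.H69.AD.PGB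
import Pool.Agent.H72.AD.ORT
import Pool.Agent.H77.AD.NWE
import Pool.Agent.H79.AD.BLK
import Pool.Agent.H79.AD.DLS
import Pool.Agent.H81.AD.UFS
import Pool.Agent.H93.AD.ZBD
import Pool.Agent.H96.AD.K0

/-!
# Almost all discriminants: the oscillating part of the second moment, assembled
-/

set_option autoImplicit false

namespace Pool.Agent.H95.AD

open Pool.Agent.H31.CN

theorem a_K0 : T_K0 := Pool.Agent.H96.AD.pf_K0

theorem a_K0M : T_K0M := Pool.Agent.H63.AD.pf_K0M a_K0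

theorem a_THX : T_THX := Pool.Agent.H56.AD.pf_THX Pool.Agent.H31.CN.Fin.c_TH1

theorem a_FEX : T_FEX :=
  Pool.Agent.H42.AD.pf_FEX Pool.Agent.H31.CN.Fin.c_ZTH Pool.Agent.H31.CN.Fin.c_CTI a_THX a_K0 a_K0M

theorem a_FEN : T_FEN := Pool.Agent.H42.AD.pf_FEN a_FEX

theorem a_K0D : T_K0D := Pool.Agent.H59.AD.pf_K0D a_K0

theorem a_BVD : T_BVD := Pool.Agent.H19.ADU.pf_BVD Pool.Agent.H31.CN.Fin.c_VK

theorem a_ORT : T_ORT := Pool.Agent.H72.AD.pf_ORT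

theorem a_GVA : T_GVA := fun n A k hA h => Pool.Agent.H25.AD.gva n A k hA h

theorem a_PSV : T_PSV := Pool.Agent.H19.ADU.pf_PSV

theorem a_PGB : T_PGB := Pool.Agent.H69.AD.pf_PGB

theorem a_CKS : T_CKS := Pool.Agent.H19.ADU.pf_CKS a_PSV a_PGB

theorem a_SPC : T_SPC := Pool.Agent.H40.AD.pf_SPC

theorem a_DLS : T_DLS := Pool.Agent.H79.AD.pf_DLS

theorem a_LSB : T_LSB := Pool.Agent.H59.AD.pf_LSB a_SPC a_DLS

theorem a_DSM : T_DSM := Pool.Agent.H6.AD.pf_DSM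

theorem a_MIK : T_MIK := Pool.Agent.H63.AD.pf_MIK

theorem a_DVB : T_DVB := Pool.Agent.H68.AD.pf_DVB

theorem a_SEX : T_SEX := Pool.Agent.H63.AD.pf_SEX

theorem a_DYS : T_DYS := Pool.Agent.H19.ADU.pf_DYS

theorem a_DEC : T_DEC := Pool.Agent.H19.ADU.pf_DEC a_ORT

theorem a_BLK : T_BLK := Pool.Agent.H79.AD.pf_BLK a_GVA a_CKS a_LSB a_DVB a_SEX

theorem a_BSM : T_BSM := Pool.Agent.H46.AD.pf_BSM a_SEX a_DYS

theorem a_LBD : T_LBD := Pool.Agent.H40.AD.pf_LBD a_DEC a_BLK a_BSM a_MIK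

theorem a_UAA : T_UAA := Pool.Agent.H63.AD.pf_UAA a_FEN a_K0 Pool.Agent.H31.CN.Fin.c_VK

theorem a_UAB : T_UAB := Pool.Agent.H11.AD.pf_UAB a_K0 Pool.Agent.H31.CN.Fin.c_VK

theorem a_UMS : T_UMS := Pool.Agent.H56.AD.pf_UMS a_UAA a_UAB a_DSM a_LBD a_K0 a_K0D a_BVD

theorem a_NRF : T_NRF := Pool.Agent.H46.AD.pf_NRF

theorem a_NWP : T_NWP := Pool.Agent.H49.AD.pf_NWP a_NRF

theorem a_NWE : T_NWE := Pool.Agent.H77.AD.pf_NWE a_NWP

theorem a_ZBD : T_ZBD := Pool.Agent.H93.AD.pf_ZBD Pool.Agent.H31.CN.Fin.c_HZ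

theorem a_USM : T_USM := Pool.Agent.H18.AD.pf_USM Pool.Agent.H31.CN.Fin.c_VK

theorem a_UFS : T_UFS := Pool.Agent.H81.AD.pf_UFS a_NWE a_ZBD a_USM

theorem a_UFM : T_UFM := Pool.Agent.H11.AD.pf_UFM a_MIK a_UMS a_UFS a_NWE a_DVB

theorem a_CDB : T_CDB := Pool.Agent.H18.AD.pf_CDB

theorem a_UFN : T_UFN := Pool.Agent.H56.AD.pf_UFN a_UFM a_CDB

end Pool.Agent.H95.AD
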