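import Pool.Agent.H31.CN.T4

/-!
# Almost all discriminants: definitions for the oscillating part of the second moment
-/

set_option autoImplicit false

open MeasureTheory Set Filter
open scoped Real

namespace Pool.Agent.H95.AD

open Pool.Agent.H31.CN

/-- the Bessel function `K₀` -/
noncomputable def k0 (x : ℝ) : ℝ := ∫ u in Ioi (0 : ℝ), Real.exp (-(x * Real.cosh u))

/-- the number of divisors -/
noncomputable def tau (n : ℕ) : ℝ := (n.divisors.card : ℝ)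

/-- `exp (2 π i x)` -/
noncomputable def ee (x : ℝ) : ℂ := Complex.exp (2 * π * Complex.I * x)

/-- the distance to the nearest integer -/
noncomputable def nd (x : ℝ) : ℝ := |x - round x|

/-- the sum over the roots of `B² = -D` modulo `4 A` -/
noncomputable def rs (n A D : ℕ) : ℂ :=
  ∑ B ∈ (Finset.range (2 * A)).filter (fun B => 4 * A ∣ B ^ 2 + D),
    ee ((n : ℝ) * B / (2 * A))

/-- the Gauss sum -/
noncomputable def gs (n A k : ℕ) : ℂ :=
  ∑ B ∈ Finset.range (2 * A), ee ((n : ℝ) * B / (2 * A) + (k : ℝ) * (B : ℝ) ^ 2 / (4 * A))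

/-- the term of the oscillating part -/
noncomputable def aa (e m A n D : ℕ) : ℂ :=
  ((4 * tau n / ((e : ℝ) * A) * Vk ((e : ℝ) ^ 2 * A / ((m : ℝ) * Real.sqrt D)) *
    k0 (π * n * Real.sqrt D / A) : ℝ) : ℂ) * rs n A D

/-- the coefficient of the oscillating part -/
noncomputable def ac (e m A n D : ℕ) : ℝ :=
  4 * tau n / ((e : ℝ) * A) * Vk ((e : ℝ) ^ 2 * A / ((m : ℝ) * Real.sqrt D)) *
    k0 (π * n * Real.sqrt D / A)

/-- the coefficients of the additive characters -/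
noncomputable def ck (α : ℕ → ℝ) (A k : ℕ) : ℂ :=
  1 / (4 * (A : ℂ)) * ∑' n : ℕ, (α n : ℂ) * gs n A k

/-- the part of a dyadic block in which the greatest common divisor is `d` -/
noncomputable def Fb (β : ℕ → ℕ → ℝ) (a j d D : ℕ) : ℂ :=
  ∑ A ∈ (Finset.Ico (2 ^ j) (2 ^ (j + 1))).filter (fun A => a ∣ A),
    ∑ k ∈ (Finset.range (4 * A)).filter (fun k => Nat.gcd k A = d),
      ck (β A) A k * ee ((k : ℝ) * D / (4 * A))

/-- the condition on the coefficients -/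
def CB (K : ℝ) (a e m Y : ℕ) (β : ℕ → ℕ → ℝ) : Prop :=
  (∀ A n : ℕ, ¬ (1 ≤ A ∧ 1 ≤ n ∧ a ∣ A) → β A n = 0) ∧
  ∀ A n : ℕ, 1 ≤ A → 1 ≤ n → |β A n| ≤ K * (tau n / ((e : ℝ) * A)) *
    Real.sqrt ((A : ℝ) / (n * Real.sqrt Y)) * Real.exp (-((n : ℝ) * Real.sqrt Y / A)) *
    Real.exp (-((e : ℝ) ^ 2 * A / (m * Real.sqrt Y)))

/-- the bound for a block -/
noncomputable def Bb (ε : ℝ) (a e m Y j d : ℕ) : ℝ :=
  if 1 ≤ d then
    (Y : ℝ) ^ (1 / 4 + ε / 4) / ((e : ℝ) * Real.sqrt a) *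
      (1 + (2 ^ j / Real.sqrt Y) / Real.sqrt ((d : ℝ) * a)) *
      (1 + Real.sqrt ((2 ^ j / Real.sqrt Y) / Real.sqrt Y)) *
      (d : ℝ) ^ (-((1 + ε) / 2)) * (2 ^ j / Real.sqrt Y) ^ (3 * ε / 2) *
      Real.exp (-((e : ℝ) ^ 2 * (2 ^ j / Real.sqrt Y) / m)) *
      Real.exp (-((d : ℝ) / (8 * (2 ^ j / Real.sqrt Y))))
  else 0

/-- the oscillating sum for the discriminant `-D`, with the congruence `a ∣ A` -/
noncomputable def UU (a e m D : ℕ) : ℝ :=
  ∑' A : ℕ, if 1 ≤ A ∧ a ∣ A then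
    Vk ((e : ℝ) ^ 2 * A / ((m : ℝ) * Real.sqrt D)) / Real.sqrt ((e : ℝ) ^ 2 * A) *
      ∑ B ∈ (Finset.range (2 * A)).filter (fun B => 4 * A ∣ B ^ 2 + D), (zf A B D - ct A D)
  else 0

/-- the constant term of the unfolded second moment -/
noncomputable def Utc (m₁ m₂ Δ e A : ℕ) : ℝ :=
  ∑ B ∈ (Finset.range (2 * A)).filter (fun B => 4 * A ∣ B ^ 2 + Δ),
    Vk ((e : ℝ) ^ 2 * A / ((m₁ : ℝ) * m₂ * Real.sqrt Δ)) / Real.sqrt ((e : ℝ) ^ 2 * A) *
      Nw m₁ m₂ A B (((B ^ 2 + Δ) / (4 * A) : ℕ) : ℤ) e * ct A Δ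

/-- the unfolded second moment with the constant term of `zf` -/
noncomputable def Uc (m₁ m₂ Δ : ℕ) : ℝ := ∑' p : ℕ × ℕ, Utc m₁ m₂ Δ p.1 p.2

/-- the coefficients of the local weight of a fundamental discriminant: `t` is the number of
`m₁`, `m₂` divisible by `p`, `j` the exponent of `p` in the congruence for `A` -/
noncomputable def uw (p D e t j : ℕ) : ℝ :=
  if t = 2 then
    (if j = 0 then (1 + (chi p D : ℝ)) *
        ((if p ∣ e then 1 else 0) + (if p ^ 2 ∣ e ∧ ¬ p ∣ D then 1 else 0)) else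
      if j = 1 then (if p ∣ e then (chi p D : ℝ) else 0) -
        (if p ^ 2 ∣ e ∧ ¬ p ∣ D then 1 else 0) else
      if j = 2 then (if p ∣ e then 0 else 1) else 0)
  else
    (if j = 0 then (if p ∣ e then 1 + (chi p D : ℝ) else 0) else
      if j = 1 then (if p ∣ e then 0 else 1) else 0)

/-- the number of `m₁`, `m₂` divisible by `p` -/
def tt (p m₁ m₂ : ℕ) : ℕ := (if p ∣ m₁ then 1 else 0) + (if p ∣ m₂ then 1 else 0)

/-- the coefficient of the congruence `a ∣ A` -/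
noncomputable def cf (m₁ m₂ D e a : ℕ) : ℝ :=
  ∏ p ∈ (m₁ * m₂).primeFactors, uw p D e (tt p m₁ m₂) (a.factorization p)

end Pool.Agent.H95.AD
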